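import Pool.Agent.helper65.GD.SpecE

set_option autoImplicit false

namespace Pool.Agent.GD

open Finset Metric Filter Topology

theorem STE (hFJB : FJB_stmt) (hNUE : NUE_stmt) : STE_stmt := by
  intro p n j Q b F hj hjp hpn hQ hR hcv hb hbm hFm
  obtain ⟨_, hFj, _⟩ := hFJB p j Q b F hj hjp hQ hR hcv hb
  obtain ⟨hD, _, _, hDsq⟩ := hNUE p n j hj hjp hpn
  have hRn := hR F n
  rw [← hcv n] at hRn
  have hsplit : ∑ m ∈ range n, ‖cv Q F m‖ * ‖F m‖ =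
      ∑ m ∈ range (p + 1), ‖cv Q F m‖ * ‖F m‖ + ∑ m ∈ Ioo p n, ‖cv Q F m‖ * ‖F m‖ := by
    have h1 : Ioo p n = Ico (p + 1) n := by
      ext m
      simp only [mem_Ioo, mem_Ico]
      omega
    rw [h1]
    exact (Finset.sum_range_add_sum_Ico (fun m => ‖cv Q F m‖ * ‖F m‖) (by omega : p + 1 ≤ n)).symm
  have hfirst : ∑ m ∈ range (p + 1), ‖cv Q F m‖ * ‖F m‖ = (j : ℝ) ^ 2 := by
    rw [Finset.sum_eq_single j]
    · rw [← hcv j, hb j hj hjp, if_pos rfl, hFj]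
      simp
      ring
    · intro m hm hmj
      rw [← hcv m]
      rcases Nat.eq_zero_or_pos m with h0 | h0
      · rw [h0]
        simp
      · rw [hb m h0 (by have := mem_range.1 hm; omega), if_neg hmj]
        simp
    · intro h
      exact absurd (mem_range.2 (by omega)) h
  have hsecond : ∑ m ∈ Ioo p n, ‖cv Q F m‖ * ‖F m‖ ≤ ∑ m ∈ Ioo p n, (m * AA p m j) * (j * BB p m j) := by
    refine Finset.sum_le_sum ?_
    intro m hm
    obtain ⟨h1, h2⟩ := mem_Ioo.1 hm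
    rw [← hcv m, norm_mul, Complex.norm_natCast]
    have h3 := hbm m h1 h2
    have h4 := hFm m h1 h2
    have h5 : (0 : ℝ) ≤ (m : ℝ) := Nat.cast_nonneg m
    have h6 : (m : ℝ) * ‖b m‖ ≤ m * AA p m j := mul_le_mul_of_nonneg_left h3 h5
    have h7 : 0 ≤ (m : ℝ) * ‖b m‖ := mul_nonneg h5 (norm_nonneg _)
    exact mul_le_mul h6 h4 (norm_nonneg _) (h7.trans h6)
  have hle : ‖(n : ℂ) * b n - F n‖ ^ 2 ≤ (n * AA p n j - j * BB p n j) ^ 2 := by
    rw [hDsq]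
    calc ‖(n : ℂ) * b n - F n‖ ^ 2 ≤ 4 * ∑ m ∈ range n, ‖cv Q F m‖ * ‖F m‖ := hRn
      _ = 4 * ((j : ℝ) ^ 2 + ∑ m ∈ Ioo p n, ‖cv Q F m‖ * ‖F m‖) := by rw [hsplit, hfirst]
      _ ≤ 4 * (j : ℝ) ^ 2 + 4 * ∑ m ∈ Ioo p n, (m * AA p m j) * (j * BB p m j) := by
        linarith
  by_contra hcon
  have hcon' := not_le.1 hcon
  nlinarith [norm_nonneg ((n : ℂ) * b n - F n)]

end Pool.Agent.GD
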